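import Mathlib
import Pool.Agent.Y237.TH.Alex

/-!
# The compact spaces in which `A(κ)` has a t-embedding
-/

set_option autoImplicit false

universe u

namespace Pool.Agent.Results.MP_7e4b22_gt.AlexandroffCriterion

open Pool.Agent.Y237.TH

/-- Let `ι` be a discrete space and `A(ι)` its one-point compactification. `A(ι)` has a t-embedding in
the compact space `X` if and only if there are distinct points `x i`, `i ∈ ι`, of `X` which converge
to a further point and have point-finite open neighbourhoods. -/
theorem result (ι X : Type u) [TopologicalSpace ι] [DiscreteTopology ι] [TopologicalSpace X]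
    [CompactSpace X] [T2Space X] :
    HasTEmbedding (OnePoint ι) X ↔ ∃ (x : ι → X) (xi : X), PointFiniteSeq x xi :=
  alexandroff_iff

end Pool.Agent.Results.MP_7e4b22_gt.AlexandroffCriterion
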