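import Mathlib

/-!
# Spaces in which `A(κ)`, `κ` uncountable, has no t-embedding

Let `A(κ)` be the one-point compactification of an uncountable discrete space. It has no
t-embedding in a product `(∏ Y_i) × G` of arbitrarily many first countable `T₁` spaces `Y_i` and a
space `G` in which every point-finite family of nonempty open sets is countable (for instance a
compact group, or any compact space with the countable chain condition).
-/

set_option autoImplicit false

open Set Filter Topology

namespace Pool.Agent.Results.MP_7e4b22_gt.NoTEmbedding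

universe u v w x

/-- `C_p(Z)`: the continuous real functions on `Z` with the topology of pointwise convergence. -/
abbrev Cp (Z : Type u) [TopologicalSpace Z] : Type u := {f : Z → ℝ // Continuous f}

/-- `s` is a t-embedding: it is a topological embedding, and there is a continuous map
`φ : C_p(Z) → C_p(X)` which extends each `f` from (the copy of) `Z` to `X`. -/
def IsTEmbedding {Z : Type u} {X : Type v} [TopologicalSpace Z] [TopologicalSpace X]
    (s : Z → X) : Prop :=
  IsEmbedding s ∧ ∃ φ : Cp Z → Cp X, Continuous φ ∧ ∀ (f : Cp Z) (z : Z), (φ f).1 (s z) = f.1 z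

/-- Every point-finite family of nonempty open subsets of `G` is countable. -/
def CountablePFC (G : Type w) [TopologicalSpace G] : Prop :=
  ∀ 𝒰 : Set (Set G), (∀ U ∈ 𝒰, IsOpen U ∧ U.Nonempty) →
    (∀ x : G, {U ∈ 𝒰 | x ∈ U}.Finite) → 𝒰.Countable

lemma countable_ne {Λ : Type u} {Y : Type v} [TopologicalSpace Y] [T1Space Y]
    [FirstCountableTopology Y]
    (t : Λ → Y) (y : Y) (h : Tendsto t cofinite (𝓝 y)) : {α | t α ≠ y}.Countable := by
  obtain ⟨B, hB⟩ := (𝓝 y).exists_antitone_basis
  refine (Set.countable_iUnion (t := fun n => {α | t α ∉ B n}) fun n => ?_).mono ?_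
  · have h1 : ∀ᶠ α in cofinite, t α ∈ B n := h (hB.1.mem_of_mem trivial)
    exact (eventually_cofinite.mp h1).countable
  · intro α hα
    have h2 : {t α}ᶜ ∈ 𝓝 y := isOpen_compl_singleton.mem_nhds (by
      intro h3
      exact hα (mem_singleton_iff.mp h3).symm)
    obtain ⟨n, -, hn⟩ := hB.1.mem_iff.mp h2
    exact mem_iUnion.mpr ⟨n, fun h3 => hn h3 rfl⟩

/-- an uncountable indexed family of nonempty open sets has a point in infinitely many members -/
lemma CountablePFC.exists_infinite {Λ : Type u} {G : Type w} [TopologicalSpace G]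
    (hG : CountablePFC G) (V : Λ → Set G) (A : Set Λ) (hA : ¬ A.Countable)
    (hV : ∀ α ∈ A, IsOpen (V α) ∧ (V α).Nonempty) : ∃ g, {α ∈ A | g ∈ V α}.Infinite := by
  by_contra hcon
  have hf : ∀ g, {α ∈ A | g ∈ V α}.Finite := by
    intro g
    by_contra h
    exact hcon ⟨g, h⟩
  apply hA
  have hVc : (V '' A).Countable := by
    apply hG
    · rintro _ ⟨α, hα, rfl⟩
      exact hV α hα
    · intro g
      refine ((hf g).image V).subset ?_
      rintro _ ⟨⟨α, hα, rfl⟩, hg⟩
      exact ⟨α, ⟨hα, hg⟩, rfl⟩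
  refine (hVc.biUnion (t := fun W _ => {α ∈ A | V α = W}) fun W hW => ?_).mono ?_
  · obtain ⟨β, hβ, rfl⟩ := hW
    obtain ⟨g, hg⟩ := (hV β hβ).2
    refine ((hf g).subset ?_).countable
    rintro α ⟨hα, h3⟩
    exact ⟨hα, by rw [h3]; exact hg⟩
  · intro α hα
    exact mem_biUnion (mem_image_of_mem V hα) ⟨hα, rfl⟩

/-- the combinatorial lemma (a form of the delta-system lemma) -/
lemma free_set {Λ : Type u} {I : Type x} (Bad : Λ → Set I)
    (hB : ∀ i, {α | i ∈ Bad α}.Countable) (n : ℕ) :
    ∀ (F : Λ → Finset I) (S : Set Λ), ¬ S.Countable → (∀ α ∈ S, (F α).card ≤ n) →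
      (∀ α ∈ S, Bad α ⊆ (F α : Set I)) →
      ∃ A ⊆ S, ¬ A.Countable ∧ ∀ α ∈ A, ∀ β ∈ A, α ≠ β → ∀ i ∈ F α, i ∉ Bad β := by
  classical
  induction n with
  | zero =>
    intro F S hS hc hb
    refine ⟨S, Subset.rfl, hS, ?_⟩
    intro α hα β hβ _ i hi
    have h1 := hc α hα
    rw [Nat.le_zero, Finset.card_eq_zero] at h1
    rw [h1] at hi
    simp at hi
  | succ n ih =>
    intro F S hS hc hb
    by_cases hcase : ∃ i, ¬ {α ∈ S | i ∈ F α}.Countable
    · obtain ⟨i, hi⟩ := hcase
      have hS' : ¬ {α ∈ S | i ∈ F α ∧ i ∉ Bad α}.Countable := by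
        intro h
        apply hi
        refine (h.union (hB i)).mono ?_
        rintro α ⟨h1, h2⟩
        by_cases h3 : i ∈ Bad α
        · exact Or.inr h3
        · exact Or.inl ⟨h1, h2, h3⟩
      obtain ⟨A, hA, hAu, hAf⟩ := ih (fun α => (F α).erase i) {α ∈ S | i ∈ F α ∧ i ∉ Bad α} hS'
        (by
          rintro α ⟨h1, h2, -⟩
          have h4 := hc α h1
          have h5 := Finset.card_erase_of_mem h2
          omega)
        (by
          rintro α ⟨h1, h2, h3⟩ j hj
          have h4 := hb α h1 hj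
          rw [Finset.coe_erase]
          refine ⟨h4, ?_⟩
          rintro rfl
          exact h3 hj)
      refine ⟨A, fun α hα => (hA hα).1, hAu, ?_⟩
      intro α hα β hβ hne j hj
      by_cases h : j = i
      · subst h
        exact (hA hβ).2.2
      · exact hAf α hα β hβ hne j (Finset.mem_erase.mpr ⟨h, hj⟩)
    · have hcase' : ∀ i, {α ∈ S | i ∈ F α}.Countable := by
        intro i
        by_contra h
        exact hcase ⟨i, h⟩
      obtain ⟨A, hA⟩ := zorn_subset {A : Set Λ | A ⊆ S ∧
          A.Pairwise fun α β => Disjoint (F α) (F β)} (by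
        intro c hc1 hc2
        refine ⟨⋃₀ c, ⟨sUnion_subset fun t ht => (hc1 ht).1, ?_⟩, fun t ht =>
          subset_sUnion_of_mem ht⟩
        rw [Set.pairwise_sUnion hc2.directedOn]
        exact fun t ht => (hc1 ht).2)
      refine ⟨A, hA.1.1, ?_, ?_⟩
      · intro hAc
        set J : Set I := ⋃ α ∈ A, (F α : Set I) with hJ
        have hJc : J.Countable := hAc.biUnion fun α _ => (F α).countable_toSet
        have hK : (⋃ i ∈ J, {α ∈ S | i ∈ F α}).Countable := hJc.biUnion fun i _ => hcase' i
        obtain ⟨β, hβS, hβ⟩ : ∃ β ∈ S, β ∉ A ∪ ⋃ i ∈ J, {α ∈ S | i ∈ F α} := by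
          by_contra h
          push Not at h
          exact hS ((hAc.union hK).mono h)
        rw [mem_union, not_or] at hβ
        have hdis : ∀ α ∈ A, Disjoint (F α) (F β) := by
          intro α hα
          rw [Finset.disjoint_left]
          intro i hi1 hi2
          apply hβ.2
          refine mem_biUnion (x := i) ?_ ⟨hβS, hi2⟩
          exact mem_biUnion hα hi1
        have hins : insert β A ∈ {A : Set Λ | A ⊆ S ∧
            A.Pairwise fun α β => Disjoint (F α) (F β)} := by
          refine ⟨insert_subset hβS hA.1.1, ?_⟩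
          refine (Set.pairwise_insert).mpr ⟨hA.1.2, ?_⟩
          intro α hα _
          exact ⟨(hdis α hα).symm, hdis α hα⟩
        exact hβ.1 (hA.2 hins (subset_insert β A) (mem_insert β A))
      · intro α hα β hβ hne i hi hi2
        exact Finset.disjoint_left.mp (hA.1.2 hα hβ hne) hi (hb β (hA.1.1 hβ) hi2)

section onept

variable {Λ : Type u} [TopologicalSpace Λ] [DiscreteTopology Λ]

lemma tendsto_coe : Tendsto (fun α : Λ => (α : OnePoint Λ)) cofinite (𝓝 OnePoint.infty) := by
  have h := OnePoint.tendsto_coe_infty (X := Λ)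
  rwa [coclosedCompact_eq_cocompact, cocompact_eq_cofinite] at h

lemma isClopen_pt (α : Λ) : IsClopen ({(α : OnePoint Λ)} : Set (OnePoint Λ)) := by
  refine ⟨isClosed_singleton, ?_⟩
  have h := OnePoint.isOpenEmbedding_coe (X := Λ) |>.isOpenMap _ (isOpen_discrete ({α} : Set Λ))
  simpa using h

/-- the characteristic function of a point -/
noncomputable def ch (α : Λ) : Cp (OnePoint Λ) :=
  ⟨Set.indicator {(α : OnePoint Λ)} 1, by
    have h := (LocallyConstant.charFn ℝ (isClopen_pt α)).continuous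
    rwa [LocallyConstant.coe_charFn] at h⟩

/-- the zero function -/
noncomputable def zr : Cp (OnePoint Λ) := ⟨fun _ => 0, continuous_const⟩

lemma tendsto_ch : Tendsto (ch : Λ → Cp (OnePoint Λ)) cofinite (𝓝 zr) := by
  rw [tendsto_subtype_rng, tendsto_pi_nhds]
  intro z
  have h : ∀ᶠ α : Λ in cofinite, (0 : ℝ) = (ch α).1 z := by
    rw [eventually_cofinite]
    refine Set.Subsingleton.finite ?_
    intro a ha b hb
    simp only [mem_ofPred_eq] at ha hb
    have h1 : ∀ c : Λ, ¬ (0 : ℝ) = (ch c).1 z → z = (c : OnePoint Λ) := by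
      intro c hc
      by_contra hne
      exact hc (by simp [ch, hne])
    exact OnePoint.coe_injective ((h1 a ha).symm.trans (h1 b hb))
  exact tendsto_const_nhds.congr' h

end onept

/-- **Theorem.** Let `Λ` be an uncountable discrete space, `Y i` (`i ∈ I`, `I` arbitrary) first
countable `T₁` spaces and `G` a space in which every point-finite family of nonempty open sets is
countable. Then the one-point compactification of `Λ` has no t-embedding in `(∏ Y i) × G`. -/
theorem result (Λ : Type u) [TopologicalSpace Λ] [DiscreteTopology Λ] [Uncountable Λ]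
    (I : Type x) (Y : I → Type v) [∀ i, TopologicalSpace (Y i)] [∀ i, T1Space (Y i)]
    [∀ i, FirstCountableTopology (Y i)]
    (G : Type w) [TopologicalSpace G] (hG : CountablePFC G) (s : OnePoint Λ → (∀ i, Y i) × G) :
    ¬ IsTEmbedding s := by
  classical
  rintro ⟨hs, φ, hφ, hφs⟩
  have hsc : Tendsto (fun α : Λ => s (α : OnePoint Λ)) cofinite (𝓝 (s OnePoint.infty)) :=
    (hs.continuous.tendsto OnePoint.infty).comp tendsto_coe
  set y := (s OnePoint.infty).1 with hy
  set U : Λ → Set ((∀ i, Y i) × G) := fun α => {x | 1 / 2 < (φ (ch α)).1 x - (φ zr).1 x} with hU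
  have hUo : ∀ α, IsOpen (U α) := fun α =>
    isOpen_lt continuous_const ((φ (ch α)).2.sub (φ zr).2)
  have hUf : ∀ x, {α | x ∈ U α}.Finite := by
    intro x
    have h1 : Tendsto (fun α : Λ => (φ (ch α)).1 x) cofinite (𝓝 ((φ zr).1 x)) := by
      have h2 : Tendsto (fun α : Λ => φ (ch α)) cofinite (𝓝 (φ zr)) :=
        (hφ.tendsto zr).comp tendsto_ch
      rw [tendsto_subtype_rng, tendsto_pi_nhds] at h2
      exact h2 x
    have h3 : ∀ᶠ α : Λ in cofinite, (φ (ch α)).1 x < (φ zr).1 x + 1 / 2 :=
      h1.eventually (gt_mem_nhds (by linarith))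
    have h4 := eventually_cofinite.mp h3
    refine h4.subset ?_
    intro α hα
    simp only [hU, mem_ofPred_eq] at hα ⊢
    linarith
  have hUs : ∀ α : Λ, s (α : OnePoint Λ) ∈ U α := by
    intro α
    simp only [hU, mem_ofPred_eq]
    rw [hφs, hφs]
    simp [ch, zr]
    norm_num
  -- basic boxes
  have hbox : ∀ α : Λ, ∃ (F : Finset I) (O : ∀ i, Set (Y i)) (V : Set G), IsOpen V ∧
      (s (α : OnePoint Λ)).2 ∈ V ∧ (∀ i ∈ F, (s (α : OnePoint Λ)).1 i ∈ O i) ∧
      ∀ p g, (∀ i ∈ F, p i ∈ O i) → g ∈ V → (p, g) ∈ U α := by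
    intro α
    obtain ⟨W, V, hW, hV, h1, h2, h3⟩ := isOpen_prod_iff.mp (hUo α) (s (α : OnePoint Λ)).1
      (s (α : OnePoint Λ)).2 (hUs α)
    obtain ⟨F, O, hO, h4⟩ := isOpen_pi_iff.mp hW _ h1
    exact ⟨F, O, V, hV, h2, fun i hi => (hO i hi).2, fun p g hp hg =>
      h3 ⟨h4 fun i hi => hp i hi, hg⟩⟩
  choose F O V hV hsV hsO hsub using hbox
  set Bad : Λ → Set I := fun α => {i | i ∈ F α ∧ (s (α : OnePoint Λ)).1 i ≠ y i} with hBad
  have hBc : ∀ i, {α | i ∈ Bad α}.Countable := by
    intro i
    have h1 : Tendsto (fun α : Λ => (s (α : OnePoint Λ)).1 i) cofinite (𝓝 (y i)) :=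
      (((continuous_apply i).comp continuous_fst).tendsto _).comp hsc
    refine (countable_ne _ _ h1).mono ?_
    rintro α ⟨-, h2⟩
    exact h2
  obtain ⟨n, hn⟩ : ∃ n : ℕ, ¬ {α : Λ | (F α).card ≤ n}.Countable := by
    by_contra hcon
    push Not at hcon
    have h1 : (univ : Set Λ).Countable := by
      refine (Set.countable_iUnion hcon).mono ?_
      intro α _
      refine mem_iUnion.mpr ⟨(F α).card, ?_⟩
      simp
    exact not_countable (Set.countable_univ_iff.mp h1)
  obtain ⟨A, -, hAu, hAf⟩ := free_set Bad hBc n F _ hn (fun α hα => hα)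
    (fun α _ i hi => hi.1)
  obtain ⟨g, hg⟩ := hG.exists_infinite V A hAu fun α _ => ⟨hV α, ⟨_, hsV α⟩⟩
  set q : ∀ i, Y i := fun i => if h : ∃ α, (α ∈ A ∧ g ∈ V α) ∧ i ∈ Bad α then
    (s ((Classical.choose h : Λ) : OnePoint Λ)).1 i else y i with hq
  apply hg
  refine (hUf (q, g)).subset ?_
  rintro α ⟨hαA, hαg⟩
  refine hsub α q g ?_ hαg
  intro i hi
  by_cases h : ∃ α, (α ∈ A ∧ g ∈ V α) ∧ i ∈ Bad α
  · have h1 := Classical.choose_spec h
    have h2 : Classical.choose h = α := by
      by_contra hne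
      exact hAf α hαA _ h1.1.1 (fun h3 => hne h3.symm) i hi h1.2
    have h3 : q i = (s (α : OnePoint Λ)).1 i := by
      simp only [hq]
      rw [dif_pos h, h2]
    rw [h3]
    exact hsO α i hi
  · have h3 : q i = y i := by
      simp only [hq]
      rw [dif_neg h]
    have h4 : (s (α : OnePoint Λ)).1 i = y i := by
      by_contra hne
      exact h ⟨α, ⟨hαA, hαg⟩, hi, hne⟩
    rw [h3, ← h4]
    exact hsO α i hi

end Pool.Agent.Results.MP_7e4b22_gt.NoTEmbedding
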